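import Mathlib

set_option maxHeartbeats 400000

namespace Pool.Agent.Results.MP_49e939_nt.Val
open Finset Nat

/-- t_k = C(6k,3k) C(3k,k). -/
def t (k : ℕ) : ℕ := (6 * k).choose (3 * k) * (3 * k).choose k

/-- a(n) as a rational number. -/
def a (n : ℕ) : ℚ :=
  ((∑ k ∈ range (n + 1), t k * t (n - k) : ℕ) : ℚ) / ((2 * (n : ℚ) - 1) * ((3 * n).choose n : ℚ))

noncomputable def V (n : ℕ) : ℕ := padicValNat 2 n !

lemma V2 (n : ℕ) : V (2 * n) = V n + n := padicValNat_factorial_mul n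

lemma V21 (n : ℕ) : V (2 * n + 1) = V n + n := by
  rw [← V2, V, V, factorial_succ, padicValNat.mul (by omega) (factorial_ne_zero _),
    padicValNat.eq_zero_of_not_dvd (by omega), zero_add]

lemma Vch (x y : ℕ) : padicValNat 2 ((x + y).choose x) + V x + V y = V (x + y) := by
  have h := choose_mul_factorial_mul_factorial (Nat.le_add_right x y)
  rw [Nat.add_sub_cancel_left] at h
  have h0 : (x + y).choose x ≠ 0 := (choose_pos (Nat.le_add_right x y)).ne'
  rw [V, V, V, ← h, padicValNat.mul (mul_ne_zero h0 (factorial_ne_zero _)) (factorial_ne_zero _),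
    padicValNat.mul h0 (factorial_ne_zero _)]

lemma Vlt (n : ℕ) (hn : 1 ≤ n) : V n + 1 ≤ n ∧ (V n + 1 = n ↔ ∃ j, n = 2 ^ j) := by
  induction n using Nat.strong_induction_on with
  | _ n ih =>
    rcases Nat.even_or_odd' n with ⟨m, rfl | rfl⟩
    · obtain ⟨h1, h2⟩ := ih m (by omega) (by omega)
      rw [V2]
      refine ⟨by omega, fun h => ?_, fun ⟨j, hj⟩ => ?_⟩
      · obtain ⟨j, hj⟩ := h2.1 (by omega)
        exact ⟨j + 1, by rw [hj]; ring⟩
      · cases j with
        | zero => omega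
        | succ j => have := h2.2 ⟨j, by rw [pow_succ] at hj; omega⟩; omega
    · rw [V21]
      by_cases hm : m = 0
      · subst hm
        exact ⟨by simp [V], fun _ => ⟨0, rfl⟩, fun _ => by simp [V]⟩
      · obtain ⟨h1, h2⟩ := ih m (by omega) (by omega)
        refine ⟨by omega, fun h => by omega, fun ⟨j, hj⟩ => ?_⟩
        cases j with
        | zero => omega
        | succ j => rw [pow_succ] at hj; omega

lemma Vle (n : ℕ) : V n ≤ n := by
  by_cases h : n = 0
  · subst h; simp [V]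
  · have := (Vlt n (by omega)).1; omega

lemma V3 (j : ℕ) : V (3 * 2 ^ j) + 2 = 3 * 2 ^ j := by
  induction j with
  | zero =>
    have h1 := V21 1
    have h2 := V21 0
    have h3 : V 0 = 0 := by simp [V]
    norm_num at h1 h2 ⊢
    omega
  | succ j ih => rw [show 3 * 2 ^ (j + 1) = 2 * (3 * 2 ^ j) by ring, V2]; omega

lemma t_ne (k : ℕ) : t k ≠ 0 :=
  mul_ne_zero (choose_pos (by omega)).ne' (choose_pos (by omega)).ne'

lemma vt (k : ℕ) : padicValNat 2 (t k) = 2 * (k - V k) := by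
  have h1 := Vch (3 * k) (3 * k)
  have h2 := Vch k (2 * k)
  rw [show 3 * k + 3 * k = 6 * k by ring] at h1
  rw [show k + 2 * k = 3 * k by ring, V2] at h2
  have h3 := V2 (3 * k)
  rw [show 2 * (3 * k) = 6 * k by ring] at h3
  have := Vle k
  rw [t, padicValNat.mul (choose_pos (by omega)).ne' (choose_pos (by omega)).ne']
  omega

lemma dec (x : ℕ) (hx : x ≠ 0) : ∃ q, x = 2 ^ padicValNat 2 x * (2 * q + 1) := by
  obtain ⟨j, o, ⟨q, rfl⟩, rfl⟩ := Nat.exists_eq_two_pow_mul_odd hx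
  refine ⟨q, ?_⟩
  rw [padicValNat.mul (by positivity) (by positivity), padicValNat.prime_pow,
    padicValNat.eq_zero_of_not_dvd (by omega), add_zero]

lemma key (n : ℕ) : ∃ T : ℕ, ∑ k ∈ range (n + 1), t k * t (n - k) = 4 ^ (n - V n) * T ∧
    (T : ZMod 4) = ((2 * n).choose n : ℕ) := by
  choose u hu using fun k => dec (t k) (t_ne k)
  have hc : ∀ k, ∃ q, k ≤ n → n.choose k = 2 ^ padicValNat 2 (n.choose k) * (2 * q + 1) := by
    intro k
    by_cases h : k ≤ n
    · obtain ⟨q, hq⟩ := dec _ (choose_pos h).ne'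
      exact ⟨q, fun _ => hq⟩
    · exact ⟨0, fun h' => absurd h' h⟩
  choose o ho using hc
  refine ⟨∑ k ∈ range (n + 1), 4 ^ padicValNat 2 (n.choose k) * ((2 * u k + 1) * (2 * u (n - k) + 1)),
    ?_, ?_⟩
  · rw [mul_sum]
    refine sum_congr rfl fun k hk => ?_
    have hk' : k ≤ n := by simpa [Nat.lt_succ_iff] using hk
    have h1 := Vch k (n - k)
    rw [Nat.add_sub_cancel' hk'] at h1
    have h2 := Vle k
    have h3 := Vle (n - k)
    have h4 := Vle n
    rw [hu k, hu (n - k), vt, vt, ← mul_assoc (4 ^ (n - V n)), ← pow_add,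
      show n - V n + padicValNat 2 (n.choose k) = (k - V k) + (n - k - V (n - k)) by omega,
      pow_mul, pow_mul, pow_add]
    norm_num
    ring
  · rw [← Nat.sum_range_choose_sq, ← sub_eq_zero]
    push_cast
    rw [← sum_sub_distrib]
    have hsq : ∀ k ≤ n, ((n.choose k : ℕ) : ZMod 4) ^ 2 = 4 ^ padicValNat 2 (n.choose k) := by
      intro k hk
      conv_lhs => rw [ho k hk]
      push_cast
      have h4 : (4 : ZMod 4) = 0 := rfl
      generalize padicValNat 2 (n.choose k) = e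
      rw [mul_pow, ← pow_mul, mul_comm e, pow_mul]
      linear_combination (2 ^ 2) ^ e * ((o k : ZMod 4) ^ 2 + o k) * h4
    have h4 : (4 : ZMod 4) = 0 := rfl
    refine sum_involution (fun k _ => n - k) ?_ ?_ ?_ ?_
    · intro k hk
      have hk' : k ≤ n := by simpa [Nat.lt_succ_iff] using hk
      rw [hsq k hk', hsq (n - k) (by omega), choose_symm hk', Nat.sub_sub_self hk']
      generalize padicValNat 2 (n.choose k) = e
      linear_combination (4 ^ e * (2 * (u k : ZMod 4) * u (n - k) + u k + u (n - k))) * h4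
    · intro k hk hne heq
      have hk' : k ≤ n := by simpa [Nat.lt_succ_iff] using hk
      apply hne
      rw [hsq k hk', heq]
      generalize padicValNat 2 (n.choose k) = e
      linear_combination (4 ^ e * ((u k : ZMod 4) ^ 2 + u k)) * h4
    · intro k hk
      simp only [mem_range]; omega
    · intro k hk
      have hk' : k ≤ n := by simpa [Nat.lt_succ_iff] using hk
      exact Nat.sub_sub_self hk'

lemma main (n : ℕ) (hn : 1 ≤ n) :
    a n ≠ 0 ∧ 3 ≤ padicValRat 2 (a n) ∧ (padicValRat 2 (a n) = 3 ↔ ∃ j, n = 2 ^ j) := by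
  obtain ⟨T, h1, h2⟩ := key n
  have hS : ∑ k ∈ range (n + 1), t k * t (n - k) ≠ 0 := by
    intro h
    have := (sum_eq_zero_iff.1 h) 0 (by simp)
    exact mul_ne_zero (t_ne _) (t_ne _) this
  have hT : T ≠ 0 := by rintro rfl; exact hS (by rw [h1, mul_zero])
  have hC : (3 * n).choose n ≠ 0 := (choose_pos (by omega)).ne'
  have hC2 : (2 * n).choose n ≠ 0 := (choose_pos (by omega)).ne'
  have e : a n = ((4 ^ (n - V n) * T : ℕ) : ℚ) / (((2 * n - 1) * (3 * n).choose n : ℕ) : ℚ) := by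
    rw [a, h1, Nat.cast_mul (2 * n - 1), Nat.cast_sub (by omega)]; push_cast; rfl
  have n1 : 4 ^ (n - V n) * T ≠ 0 := by rw [← h1]; exact hS
  have n2 : (2 * n - 1) * (3 * n).choose n ≠ 0 := mul_ne_zero (by omega) hC
  have v1 := Vch n (2 * n)
  rw [show n + 2 * n = 3 * n by ring, V2] at v1
  have v2 := Vch n n
  rw [← two_mul, V2] at v2
  obtain ⟨l1, l2⟩ := Vlt n hn
  obtain ⟨l3, l4⟩ := Vlt (3 * n) (by omega)
  have l5 : V (3 * n) + 1 ≠ 3 * n := fun h => by
    obtain ⟨j, hj⟩ := l4.1 h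
    have : 3 ∣ 2 ^ j := ⟨n, hj.symm⟩
    have := Nat.Prime.dvd_of_dvd_pow Nat.prime_three this
    omega
  have hv : padicValRat 2 (a n) = (3 * n - V (3 * n) : ℤ) + padicValNat 2 T := by
    rw [e, padicValRat.div (by exact_mod_cast n1) (by exact_mod_cast n2), padicValRat.of_nat,
      padicValRat.of_nat, padicValNat.mul (by positivity) hT, padicValNat.mul (by omega) hC,
      padicValNat.eq_zero_of_not_dvd (n := 2 * n - 1) (by omega),
      show (4 : ℕ) = 2 ^ 2 by norm_num, ← pow_mul, padicValNat.prime_pow]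
    omega
  have hmod : T % 4 = (2 * n).choose n % 4 := (ZMod.natCast_eq_natCast_iff' _ _ 4).1 h2
  have d1 : ∀ x : ℕ, x ≠ 0 → (1 ≤ padicValNat 2 x ↔ 2 ∣ x) := fun x hx => by
    rw [← padicValNat_dvd_iff_le hx, pow_one]
  have d2 : ∀ x : ℕ, x ≠ 0 → (2 ≤ padicValNat 2 x ↔ 4 ∣ x) := fun x hx => by
    rw [← padicValNat_dvd_iff_le hx]; rfl
  have a1 := d1 T hT
  have a2 := d2 T hT
  have a3 := d1 _ hC2
  have a4 := d2 _ hC2
  refine ⟨by rw [e]; exact div_ne_zero (by exact_mod_cast n1) (by exact_mod_cast n2), ?_, ?_⟩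
  · rw [hv]; omega
  · rw [hv, ← l2]
    constructor
    · intro h; omega
    · intro h
      obtain ⟨j, hj⟩ := l2.1 h
      have := V3 j
      rw [← hj] at this
      omega

theorem result (n : ℕ) (hn : 1 ≤ n) :
    (a n ≠ 0 ∧ 3 ≤ padicValRat 2 (a n) ∧ (padicValRat 2 (a n) = 3 ↔ ∃ j, n = 2 ^ j)) ∧
    ∀ z : ℤ, a n = z → 8 ∣ z ∧ (Odd (z / 8) ↔ ∃ j, n = 2 ^ j) := by
  obtain ⟨h0, h1, h2⟩ := main n hn
  refine ⟨⟨h0, h1, h2⟩, fun z hz => ?_⟩
  rw [hz] at h0 h1 h2
  rw [padicValRat.of_int] at h1 h2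
  have hz0 : z ≠ 0 := by exact_mod_cast h0
  have d3 := padicValInt_dvd_iff (p := 2) 3 z
  have d4 := padicValInt_dvd_iff (p := 2) 4 z
  norm_num [hz0] at d3 d4
  rw [← h2, Int.odd_iff]
  omega

end Pool.Agent.Results.MP_49e939_nt.Val
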